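import Pool.Agent.TH469.SX.Dich
import Pool.Agent.TH978.S13.Step3

/-! 21 general points of one multiplicity: the expected dimension in all degrees. -/

namespace Pool.Agent.TH469.SX

open Finset Pool.Agent.TH176.Nag Pool.Agent.TH603.Sur Pool.Agent.TH603.Cut Pool.Agent.H932R3
open Pool.Agent.TH864.SX (Fb Fa Slp)

theorem step3 {M : ℕ} {K : ℝ} (h : Slp M 1 K) : Step3 M K := by
  intro D m h0 h1 hdef
  have hK2 : K ^ 2 = M * K + M := by
    have := h.eq
    push_cast at this
    linarith
  exact Pool.Agent.TH978.S13.step3_blk h.K0 hK2 h0 h1 hdef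

/-- the slope for 21 points -/
noncomputable def K21 : ℝ := (3 + √21) / 2

theorem sq21 : √(21 : ℝ) * √21 = 21 := Real.mul_self_sqrt (by norm_num)

theorem irr21 : Irrational K21 := by
  have h : Irrational (√(21 : ℝ)) := by
    have h1 : ¬ IsSquare (21 : ℕ) := by
      rintro ⟨a, ha⟩
      have : a < 5 := by
        by_contra hcon
        push Not at hcon
        have := Nat.mul_le_mul hcon hcon
        omega
      interval_cases a <;> omega
    have := irrational_sqrt_natCast_iff.2 h1
    exact_mod_cast this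
  have e : K21 = ((3 / 2 : ℚ) : ℝ) + ((1 / 2 : ℚ) : ℝ) * √21 := by
    unfold K21; push_cast; ring
  rw [e]
  exact (h.ratCast_mul (by norm_num)).ratCast_add _

theorem slp21 : Slp 3 1 K21 := by
  have h1 : 3 < √(21 : ℝ) := by
    rw [Real.lt_sqrt (by norm_num)]; norm_num
  refine ⟨by norm_num, by norm_num, ?_, ?_, irr21⟩
  · unfold K21; push_cast; linarith
  · unfold K21; push_cast; nlinarith [sq21]

theorem K21_lt : K21 < 6 := by
  have h1 : √(21 : ℝ) < 5 := by
    rw [Real.sqrt_lt' (by norm_num)]; norm_num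
  unfold K21; linarith

/-- emptiness or independence for 21 points, in every degree -/
theorem dich21 (m d : ℕ) :
    Emp (fun _ : Fin 21 => m) (TZ d) ∨ Sur (fun _ : Fin 21 => m) (TZ d) :=
  dich_three (b := 7) slp21 K21_lt (dich (M := 3) slp21 (step3 slp21) m d)

/-- **21 general points of multiplicity `m`: the expected dimension in all degrees** -/
theorem twentyone (m : ℕ) :
    ∃ F : MvPolynomial (Fin 21 × Fin 2) ℚ, F ≠ 0 ∧ ∀ {L : Type} [Field L] [CharZero L]
      (P : Fin 21 → Fin 2 → L), MvPolynomial.aeval (fun ij : Fin 21 × Fin 2 => P ij.1 ij.2) F ≠ 0 →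
      ∀ d, ExpDim L (fun _ => m) P d :=
  expDim_of_dich fun d => dich21 m d

end Pool.Agent.TH469.SX
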