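import Pool.Agent.TH469.SX.Dich
import Pool.Agent.TH864.SX.Eleven

/-! 15 general points of one multiplicity: three sectors of five points; all degrees not divisible by
three, and most of the others. -/

namespace Pool.Agent.TH469.SX

open Finset Pool.Agent.TH176.Nag Pool.Agent.TH603.Sur Pool.Agent.TH603.Cut Pool.Agent.H932R3
open Pool.Agent.TH864.SX (Fb Fa Slp)

/-- the slope for 15 points -/
noncomputable def K15 : ℝ := (3 + √15) / 2

theorem sq15 : √(15 : ℝ) * √15 = 15 := Real.mul_self_sqrt (by norm_num)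

theorem irr15 : Irrational K15 := by
  have h : Irrational (√(15 : ℝ)) := by
    have h1 : ¬ IsSquare (15 : ℕ) := by
      rintro ⟨a, ha⟩
      have : a < 4 := by
        by_contra hcon
        push Not at hcon
        have := Nat.mul_le_mul hcon hcon
        omega
      interval_cases a <;> omega
    have := irrational_sqrt_natCast_iff.2 h1
    exact_mod_cast this
  have e : K15 = ((3 / 2 : ℚ) : ℝ) + ((1 / 2 : ℚ) : ℝ) * √15 := by
    unfold K15; push_cast; ring
  rw [e]
  exact (h.ratCast_mul (by norm_num)).ratCast_add _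

theorem three_lt : 3 < √(15 : ℝ) := by
  rw [Real.lt_sqrt (by norm_num)]; norm_num

theorem slp15 : Slp 3 2 K15 := by
  have h1 := three_lt
  refine ⟨by norm_num, by norm_num, ?_, ?_, irr15⟩
  · unfold K15; push_cast; linarith
  · unfold K15; push_cast; nlinarith [sq15]

theorem K15_lt : K15 < 6 := by
  have h1 : √(15 : ℝ) < 5 := by
    rw [Real.sqrt_lt' (by norm_num)]; norm_num
  unfold K15; linarith

/-- emptiness or independence in a block of five points -/
theorem dich5 (m d : ℕ) (hG : ¬ 3 ∣ d ∨ (d : ℝ) < √15 * m ∨ √15 * (2 * m + 1) ≤ 2 * d + 3) :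
    Emp (fun _ : Fin 5 => m) (Fa 2 K15 d) ∨ Sur (fun _ : Fin 5 => m) (Fb 2 K15 d) := by
  have h := slp15
  have hK0 := h.K0
  have hK : ((2 : ℕ) : ℝ) * (K15 * (K15 - (3 : ℕ))) = (3 : ℕ) := h.eq
  have hpq : 1 * 2 = 2 := rfl
  have hcard : Fintype.card (Fin 5) = 3 + 2 * 1 := by simp
  have hs := three_lt
  have hss := sq15
  have hK1 : K15 * √15 = 3 * (K15 + 1) := by
    unfold K15
    linarith
  obtain ⟨A, hA⟩ : ∃ A : ℝ, A = K15 * d / 3 := ⟨_, rfl⟩
  have hA0 : 0 ≤ A := by rw [hA]; positivity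
  rw [Fb_eq, ← hA]
  rcases le_or_gt ((2 : ℕ) * (m : ℝ) * (K15 + (1 : ℕ)) + 1) ((2 : ℕ) * A) with h1 | h1
  · exact Or.inr (Sur_blk hpq hK0 hK hcard h1)
  left
  rcases hG with hd | hd | hd
  · refine (Emp_blk hpq hK0 hK hcard h1).mono ?_
    rw [hA]
    exact Fa_eq hd
  · refine (Emp_apex hpq hK0 hK hcard hA0 ?_).mono ?_
    · rw [hA]
      have h2 : K15 * d < K15 * (√15 * m) := mul_lt_mul_of_pos_left hd hK0
      have h3 : K15 * (√15 * m) = 3 * (K15 + 1) * m := by rw [← mul_assoc, hK1]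
      push_cast
      linarith
    · rw [hA]
      exact Fa_sub 2 K15 d
  · exfalso
    have h2 : K15 * (√15 * (2 * m + 1)) ≤ K15 * (2 * d + 3) := mul_le_mul_of_nonneg_left hd hK0.le
    have h3 : K15 * (√15 * (2 * (m : ℝ) + 1)) = 3 * (K15 + 1) * (2 * m + 1) := by rw [← mul_assoc, hK1]
    push_cast at h1
    rw [hA] at h1
    linarith

/-- **15 points**: all degrees not divisible by three; and all the others but those with
`√15 m ≤ d` and `2 d + 3 < √15 (2 m + 1)` -/
theorem fifteen (m : ℕ) :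
    ∃ F : MvPolynomial (Fin 15 × Fin 2) ℚ, F ≠ 0 ∧ ∀ {L : Type} [Field L] [CharZero L]
      (P : Fin 15 → Fin 2 → L), MvPolynomial.aeval (fun ij : Fin 15 × Fin 2 => P ij.1 ij.2) F ≠ 0 →
      ∀ d : ℕ, (¬ 3 ∣ d ∨ (d : ℝ) < √15 * m ∨ √15 * (2 * m + 1) ≤ 2 * d + 3) →
        ExpDim L (fun _ => m) P d :=
  Pool.Agent.TH864.SX.expDim_of_or' fun d hd => dich_three (b := 5) slp15 K15_lt (dich5 m d hd)

end Pool.Agent.TH469.SX
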