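import Pool.Agent.TH469.SX.Blk
import Pool.Agent.TH469.SX.Sect
import Pool.Agent.TH641.UM.Ones

/-! Emptiness or independence for the exact blocks, and the expected dimension. -/

namespace Pool.Agent.TH469.SX

open Finset Pool.Agent.TH176.Nag Pool.Agent.TH603.Sur Pool.Agent.TH603.Cut Pool.Agent.H932R3
open Pool.Agent.TH864.SX (Fb Fa Slp)

/-- the flattened block with its apex, in the coordinates `(t - k, k)` -/
def BlkA (K D : ℝ) : Set (ℤ × ℤ) :=
  {p | 1 ≤ p.1 ∧ 0 ≤ p.2 ∧ (p.1 : ℝ) + (K + 1) * p.2 ≤ D} ∪ {(0, 0)}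

/-- the block with the apex in the critical degrees with a deficient row -/
def Step3 (M : ℕ) (K : ℝ) : Prop := ∀ {D : ℝ} {m : ℕ}, (K + 2) * m ≤ D → D - (K + 2) * m < 1 →
  (∃ k : ℕ, k < m ∧ ⌊D - (K + 2) * k⌋ + ⌊(D - (K + 2) * k - 1) / (K + 1)⌋ < (M + 4) * ((m : ℤ) - k)) →
  Emp (fun _ : Fin (M + 4) => m) (BlkA K D)

theorem Fb_eq (q : ℕ) (K : ℝ) (d : ℕ) : Fb q K d = Fl q K (K * d / 3) := rfl

theorem Fa_sub (q : ℕ) (K : ℝ) (d : ℕ) : Fa q K d ⊆ Fl q K (K * d / 3) ∪ {((0, 0) : ℤ × ℤ)} := by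
  rintro p (hp | ⟨-, hp⟩)
  · exact Or.inl hp
  · exact Or.inr hp

theorem Fa_eq {q : ℕ} {K : ℝ} {d : ℕ} (hd : ¬ 3 ∣ d) : Fa q K d ⊆ Fl q K (K * d / 3) := by
  rintro p (hp | ⟨h, hp⟩)
  · exact hp
  · exact absurd h hd

/-- **emptiness or independence on the flattened block** -/
theorem dich {M : ℕ} {K : ℝ} (h : Slp M 1 K) (h3 : Step3 M K) (m d : ℕ) :
    Emp (fun _ : Fin (M + 4) => m) (Fa 1 K d) ∨ Sur (fun _ : Fin (M + 4) => m) (Fb 1 K d) := by
  have hK0 := h.K0
  have hK : ((1 : ℕ) : ℝ) * (K * (K - M)) = M := h.eq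
  have hpq : 2 * 1 = 2 := rfl
  have hcard : Fintype.card (Fin (M + 4)) = M + 2 * 2 := by simp
  obtain ⟨A, hA⟩ : ∃ A : ℝ, A = K * d / 3 := ⟨_, rfl⟩
  have hA0 : 0 ≤ A := by rw [hA]; positivity
  rw [Fb_eq, ← hA]
  rcases le_or_gt ((1 : ℕ) * (m : ℝ) * (K + (2 : ℕ)) + 1) ((1 : ℕ) * A) with h1 | h1
  · exact Or.inr (Sur_blk hpq hK0 hK hcard h1)
  by_cases hd : 3 ∣ d
  · rcases lt_or_ge A (m * (K + (2 : ℕ))) with h2 | h2
    · left
      refine (Emp_apex hpq hK0 hK hcard hA0 h2).mono ?_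
      rw [hA]
      exact Fa_sub 1 K d
    · by_cases hrow : ∀ k : ℕ, k < m → (M + 2 * (2 : ℕ) : ℤ) * ((m : ℤ) - k) ≤
          ⌊A - (K + (2 : ℕ)) * k⌋ +
            ⌊(A - (K + (2 : ℕ)) * k - (K + (2 : ℕ))) / ((1 : ℕ) * (K + (2 : ℕ)) - 1)⌋ + 1
      · exact Or.inr (Sur_rows' hpq hK0 hcard hrow)
      · left
        push Not at hrow
        obtain ⟨k, hk, hk2⟩ := hrow
        have h4 : Emp (fun _ : Fin (M + 4) => m) (BlkA K A) := by
          refine h3 ?_ ?_ ⟨k, hk, ?_⟩
          · push_cast at h2; linarith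
          · push_cast at h1; linarith
          · push_cast at hk2
            have e : (A - (K + 2) * (k : ℝ) - (K + 2)) / (1 * (K + 2) - 1) =
                (A - (K + 2) * k - 1) / (K + 1) - (1 : ℕ) := by
              have hK1 : K + 1 ≠ 0 := by linarith
              have e1 : 1 * (K + 2) - 1 = K + 1 := by ring
              rw [e1]
              field_simp
              push_cast
              ring
            rw [e, Int.floor_sub_natCast] at hk2
            push_cast at hk2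
            linarith
        refine (h4.comap 1 (-1) 0 1 0 0 (by norm_num) ?_)
        intro p hp
        rw [hA] at *
        rcases Fa_sub 1 K d hp with hp | hp
        · obtain ⟨g1, g2, g3, g4⟩ := hp
          left
          push_cast at g3
          refine ⟨by simp only; omega, by simp only; omega, ?_⟩
          simp only
          push_cast
          linarith
        · right
          rw [Set.mem_singleton_iff] at hp ⊢
          rw [hp]
          simp
  · left
    refine (Emp_blk hpq hK0 hK hcard h1).mono ?_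
    rw [hA]
    exact Fa_eq hd

/-- emptiness or independence in every degree gives the expected dimension -/
theorem expDim_of_dich {n : ℕ} {w : Fin n → ℕ} (h : ∀ d, Emp w (TZ d) ∨ Sur w (TZ d)) :
    ∃ F : MvPolynomial (Fin n × Fin 2) ℚ, F ≠ 0 ∧ ∀ {L : Type} [Field L] [CharZero L]
      (P : Fin n → Fin 2 → L), MvPolynomial.aeval (fun ij : Fin n × Fin 2 => P ij.1 ij.2) F ≠ 0 →
      ∀ d, ExpDim L w P d := by
  have hz : ∀ {S : Set (ℤ × ℤ)}, Emp (Sum.elim w (fun _ : Fin 0 => 1)) S → Emp w S := by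
    intro S hS
    refine Emp_emb (g := Sum.elim id Fin.elim0) ?_ ?_ hS
    · rintro (a | a) (b | b) hab
      · simpa using hab
      · exact b.elim0
      · exact a.elim0
      · exact a.elim0
    · rintro (a | a)
      · exact le_rfl
      · exact a.elim0
  have hz' : ∀ {S : Set (ℤ × ℤ)}, Emp w S → Emp (Sum.elim w (fun _ : Fin 0 => 1)) S := by
    intro S hS
    refine Emp_emb (g := Sum.inl) Sum.inl_injective ?_ hS
    intro a
    exact le_rfl
  refine Pool.Agent.TH641.UM.expDim_of_sign (fun d hd => ?_) (fun d hd => ?_)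
  · rcases h d with h | h
    · exact h
    · exact hz (Pool.Agent.TH641.UM.Emp_ones (p := 0) h (by simpa using hd))
  · rcases h d with h | h
    · exact Pool.Agent.TH641.UM.Sur_of_ones (p := 0) (hz' h) (by simpa using hd)
    · exact h

/-- three sectors of `b` points -/
theorem dich_three {b m d : ℕ} {K : ℝ} {q : ℕ} (h : Slp 3 q K) (h6 : K < 6)
    (hd : Emp (fun _ : Fin b => m) (Fa q K d) ∨ Sur (fun _ : Fin b => m) (Fb q K d)) :
    Emp (fun _ : Fin (3 * b) => m) (TZ d) ∨ Sur (fun _ : Fin (3 * b) => m) (TZ d) := by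
  have e : (Fin b ⊕ Fin b) ⊕ Fin b ≃ Fin (3 * b) := by
    apply Fintype.equivOfCardEq
    simp
    ring
  have hw : ∀ i, (Sum.elim (Sum.elim (fun _ : Fin b => m) fun _ : Fin b => m) fun _ : Fin b => m) i = m := by
    rintro ((i | i) | i) <;> rfl
  rcases hd with hd | hd
  · left
    refine Emp_emb (g := e) e.injective (fun i => ?_) (Emp_TZ3 h h6 hd)
    rw [hw]
  · right
    obtain ⟨T, h1, h2, h3⟩ := Sur_TZ3 h h6 hd
    refine ⟨T, h1, ?_, Emp_emb (g := e) e.injective (fun i => ?_) h3⟩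
    · rw [h2]
      unfold Pool.Agent.TH603.Sur.cond
      simp only [hw]
      rw [Finset.sum_const, Finset.sum_const, Finset.card_univ, Finset.card_univ, Fintype.card_congr e]
    · rw [hw]

end Pool.Agent.TH469.SX
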