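import Pool.Agent.TH759.EV.NDich
import Pool.Agent.TH469.SX.TwentyOne

/-! Nearly equal multiplicities on the exact block (`q = 1`), for every `M`, and 21 points. -/

namespace Pool.Agent.TH469.SX

open Finset Pool.Agent.TH176.Nag Pool.Agent.TH603.Sur Pool.Agent.TH603.Cut Pool.Agent.H932R3
open Pool.Agent.TH759.EV (dich_blk Emp_apex_w Sur_rows_w)

/-- **emptiness or independence on the block, `M + 4` points of multiplicities `m` and `m + 1`**,
every real size `D` -/
theorem dichN {M m : ℕ} {K D : ℝ} (hM : 0 < M) (hK : 0 < K) (hK2 : K ^ 2 = M * K + M)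
    {w : Fin (M + 4) → ℕ} (hw : ∀ i, w i = m ∨ w i = m + 1) {i0 : Fin (M + 4)} (hw0 : w i0 = m)
    (hD0 : 0 ≤ D) :
    Emp w (Fl 1 K D ∪ {((0, 0) : ℤ × ℤ)}) ∨ Sur w (Fl 1 K D) := by
  have hMR : (1 : ℝ) ≤ M := by exact_mod_cast hM
  have hK1 : 0 < K + 1 := by linarith
  have hKM : (M : ℝ) < K := by
    by_contra hcon
    push Not at hcon
    have := mul_le_mul_of_nonneg_left hcon hK.le
    nlinarith
  have hKM1 : K < M + 1 := by
    by_contra hcon
    push Not at hcon
    have := mul_le_mul_of_nonneg_left hcon hK.le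
    nlinarith
  have hKK : (K + 2) ^ 2 = (M + 4) * (K + 1) := by linear_combination hK2
  have hKeq : ((1 : ℕ) : ℝ) * (K * (K - M)) = M := by
    push_cast; linear_combination hK2
  -- the multiplicities
  obtain ⟨n1, hn1⟩ : ∃ n1 : ℕ, n1 = ∑ i, (w i - m) := ⟨_, rfl⟩
  have hS : ∀ k : ℕ, k ≤ m → ∑ i, (w i - k) = (M + 4) * (m - k) + n1 := by
    intro k hk
    rw [hn1]
    have : (M + 4) * (m - k) = ∑ _i : Fin (M + 4), (m - k) := by simp
    rw [this, ← sum_add_distrib]
    refine sum_congr rfl fun i _ => ?_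
    rcases hw i with h | h <;> omega
  have hW : ∑ i, w i = (M + 4) * m + n1 := by
    have := hS 0 (Nat.zero_le _)
    simpa using this
  have hn12 : n1 ≤ M + 3 := by
    have h1 : n1 = ∑ i ∈ univ.erase i0, (w i - m) := by
      rw [hn1, ← Finset.add_sum_erase univ _ (mem_univ i0), hw0]
      simp
    rw [h1]
    have h2 : ∑ i ∈ univ.erase i0, (w i - m) ≤ ∑ i ∈ univ.erase i0, 1 :=
      sum_le_sum fun i _ => by rcases hw i with h | h <;> omega
    have h3 : ∑ i ∈ univ.erase i0, 1 = M + 3 := by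
      rw [sum_const, card_erase_of_mem (mem_univ _)]
      simp
    omega
  have hWR : ((∑ i, w i : ℕ) : ℝ) = (M + 4) * m + n1 := by rw [hW]; push_cast; ring
  have hn0 : (0 : ℝ) ≤ n1 := Nat.cast_nonneg _
  have hn12R : (n1 : ℝ) ≤ M + 3 := by exact_mod_cast hn12
  obtain ⟨e, he⟩ : ∃ e : ℝ, e = D - (K + 2) * m := ⟨_, rfl⟩
  have hDm : D = (K + 2) * m + e := by rw [he]; ring
  rcases le_or_gt (K + 2) ((e - n1) * (K + 1) + e) with hX | hwin
  · -- all rows are long
    right
    have hX' : ((n1 : ℝ) + 1) * (K + 1) ≤ e * (K + 2) - 1 := by linarith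
    refine Sur_rows_w (p := 2) (q := 1) (by norm_num) hK fun k hk => ?_
    have e1 : ∀ Y : ℝ, (Y - (K + (2 : ℕ))) / (((1 : ℕ) : ℝ) * (K + (2 : ℕ)) - 1) = (Y - 1) / (K + 1) - 1 := by
      intro Y
      have : ((1 : ℕ) : ℝ) * (K + (2 : ℕ)) - 1 = K + 1 := by push_cast; ring
      rw [this]
      field_simp
      push_cast
      ring
    rw [e1, Int.floor_sub_one]
    push_cast
    obtain ⟨i, hi⟩ := hk
    have hkm : k ≤ m := by rcases hw i with h | h <;> omega
    have h2 := hS k hkm
    obtain ⟨x, hx⟩ : ∃ x : ℝ, x = D - (K + 2) * k := ⟨_, rfl⟩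
    rw [← hx]
    have hx1 : x = (K + 2) * ((m : ℝ) - k) + e := by rw [hx, hDm]; ring
    have hf1 := Int.lt_floor_add_one x
    have hf2 := Int.lt_floor_add_one ((x - 1) / (K + 1))
    have hq : (x - 1) / (K + 1) = ((M : ℝ) + 4) * ((m : ℝ) - k) + (e * (K + 2) - 1) / (K + 1) - x := by
      have hne : K + 1 ≠ 0 := hK1.ne'
      have h5 : (((M : ℝ) + 4) * ((m : ℝ) - k) + (e * (K + 2) - 1) / (K + 1) - x) * (K + 1) = x - 1 := by
        have h6 : (e * (K + 2) - 1) / (K + 1) * (K + 1) = e * (K + 2) - 1 := div_mul_cancel₀ _ hne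
        have h7 : (((M : ℝ) + 4) * ((m : ℝ) - k) + (e * (K + 2) - 1) / (K + 1) - x) * (K + 1) =
            ((M : ℝ) + 4) * ((m : ℝ) - k) * (K + 1) + (e * (K + 2) - 1) / (K + 1) * (K + 1) - x * (K + 1) := by ring
        rw [h7, h6, hx1]
        linear_combination (-((m : ℝ) - k)) * hKK
      rw [div_eq_iff hne, h5]
    have hq2 : (n1 : ℝ) + 1 ≤ (e * (K + 2) - 1) / (K + 1) := by
      rw [le_div_iff₀ hK1]; exact hX'
    have h3 : (((M : ℤ) + 4) * ((m : ℤ) - k) + n1 - 1 : ℤ) < ⌊x⌋ + ⌊(x - 1) / (K + 1)⌋ := by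
      have : ((((M : ℤ) + 4) * ((m : ℤ) - k) + n1 - 1 : ℤ) : ℝ) < ((⌊x⌋ + ⌊(x - 1) / (K + 1)⌋ : ℤ) : ℝ) := by
        push_cast
        linarith
      exact_mod_cast this
    have h4 : ((∑ i, (w i - k) : ℕ) : ℤ) = ((M : ℤ) + 4) * ((m : ℤ) - k) + n1 := by
      rw [h2]
      push_cast [Nat.cast_sub hkm]
      ring
    push_cast at h4
    rw [h4]
    linarith
  rcases lt_or_ge e (K + 2) with heK | heK
  · rcases lt_or_ge e n1 with hen | hen
    · left
      refine Emp_apex_w (p := 2) (q := 1) (M := M) (by norm_num) hK hKeq (by simp) hD0 ?_ ?_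
      · rw [hWR, hDm]
        push_cast
        -- `N (e - 1) < (K + 2) n1`
        have h2 : (K + 2) * (e - 1) < n1 * (K + 1) := by linarith
        have h3 : ((M : ℝ) + 4) * (e - 1) < (K + 2) * n1 := by
          have h4 : ((M : ℝ) + 4) * (e - 1) * (K + 1) < (K + 2) * n1 * (K + 1) := by
            have h5 : ((M : ℝ) + 4) * (e - 1) * (K + 1) = (K + 2) * ((K + 2) * (e - 1)) := by
              linear_combination (-(e - 1)) * hKK
            rw [h5]
            have h6 := mul_lt_mul_of_pos_left h2 (show 0 < K + 2 by linarith)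
            linarith
          exact lt_of_mul_lt_mul_right h4 hK1.le
        linarith
      · intro g hg1 hg2
        push_cast at hg1 hg2 ⊢
        have h3 : (g : ℝ) < m + 1 := by
          by_contra hcon
          push Not at hcon
          have := mul_le_mul_of_nonneg_left hcon (show 0 ≤ K + 2 by linarith)
          linarith
        have h3' : g ≤ m := by
          have h6 : g < m + 1 := by exact_mod_cast h3
          omega
        have h6 := hS g h3'
        have h7 : ∑ i, ((w i - g : ℕ) : ℝ) = ((M : ℝ) + 4) * ((m : ℝ) - g) + n1 := by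
          have : ((∑ i, (w i - g) : ℕ) : ℝ) = ((M : ℝ) + 4) * ((m : ℝ) - g) + n1 := by
            rw [h6]; push_cast [Nat.cast_sub h3']; ring
          rw [← this]; push_cast; rfl
        rw [h7]
        rcases h3'.lt_or_eq with hlt | heq
        · have h8 : (g : ℝ) + 1 ≤ m := by exact_mod_cast hlt
          have h9 : ((M : ℝ) + 4) * 1 ≤ ((M : ℝ) + 4) * ((m : ℝ) - g) :=
            mul_le_mul_of_nonneg_left (by linarith) (by linarith)
          linarith
        · subst heq
          linarith
    · exact dich_blk (n1 := (n1 : ℤ)) (M := M) i0 hK hK2 hw0 hDm rfl (by linarith) heK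
        (by push_cast; linarith) (by push_cast; exact hwin)
        (by
          intro k hk
          rw [hS k hk.le]
          push_cast [Nat.cast_sub hk.le]
          ring)
        (fun i => by rcases hw i with h | h <;> omega)
        (by rw [hn1]) (fun _ => by rw [hn1])
  · -- `n1 = M + 3`, the base is `m + 1`
    have h12 : n1 = M + 3 := by
      by_contra hne
      have h2 : n1 ≤ M + 2 := by omega
      have h2R : (n1 : ℝ) ≤ M + 2 := by exact_mod_cast h2
      have h3 : (K + 2) * (K + 2) ≤ e * (K + 2) := mul_le_mul_of_nonneg_right heK (by linarith)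
      have h4 : n1 * (K + 1) ≤ (M + 2) * (K + 1) := mul_le_mul_of_nonneg_right h2R hK1.le
      nlinarith
    have h12R : (n1 : ℝ) = M + 3 := by rw [h12]; push_cast; ring
    obtain ⟨i1, hi1⟩ : ∃ i1, w i1 = m + 1 := by
      by_contra hcon
      push Not at hcon
      have : n1 = 0 := by
        rw [hn1]
        refine sum_eq_zero fun i _ => ?_
        rcases hw i with h | h
        · omega
        · exact absurd h (hcon i)
      omega
    obtain ⟨e2, he2⟩ : ∃ e2 : ℝ, e2 = e - (K + 2) := ⟨_, rfl⟩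
    have he21 : (K + 2) * e2 < 1 := by
      rw [he2]
      rw [h12R] at hwin
      nlinarith
    have he20 : 0 ≤ e2 := by rw [he2]; linarith
    exact dich_blk (n1 := -1) (M := M) (e := e2) (e' := e2 + 1) (m := m + 1) (D := D) (K := K) i1 hK hK2 hi1
        (by rw [hDm, he2]; push_cast; ring) (by push_cast; ring) he20
        (by nlinarith) (by linarith) (by nlinarith)
        (by
          intro k hk
          have hk' : k ≤ m := by omega
          rw [hS k hk', h12]
          push_cast [Nat.cast_sub hk']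
          ring)
        (fun i => by rcases hw i with h | h <;> omega)
        (by
          have : (0 : ℤ) ≤ ((∑ i, (w i - (m + 1)) : ℕ) : ℤ) := Int.natCast_nonneg _
          linarith)
        (by
          rintro ⟨i, hi⟩
          exfalso
          rcases hw i with h | h <;> omega)

open Pool.Agent.TH864.SX (Fb Fa Slp)

/-- the dichotomy without a distinguished point, on the sector block of degree `d` -/
theorem dichNd {M m d : ℕ} {K : ℝ} (h : Slp M 1 K)
    {w : Fin (M + 4) → ℕ} (hw : ∀ i, w i = m ∨ w i = m + 1) :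
    Emp w (Fa 1 K d) ∨ Sur w (Fb 1 K d) := by
  have hK2 : K ^ 2 = M * K + M := by
    have := h.eq
    push_cast at this
    linarith
  have hD0 : 0 ≤ K * d / 3 := by have := h.K0; positivity
  have key : Emp w (Fl 1 K (K * d / 3) ∪ {((0, 0) : ℤ × ℤ)}) ∨ Sur w (Fl 1 K (K * d / 3)) := by
    by_cases h0 : ∃ i0, w i0 = m
    · obtain ⟨i0, h0⟩ := h0
      exact dichN h.hM h.K0 hK2 hw h0 hD0
    · push Not at h0
      have h1 : ∀ i, w i = m + 1 := fun i => by
        rcases hw i with h2 | h2
        · exact absurd h2 (h0 i)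
        · exact h2
      exact dichN (m := m + 1) h.hM h.K0 hK2 (fun i => Or.inl (h1 i)) (h1 ⟨0, by omega⟩) hD0
  rcases key with h1 | h1
  · exact Or.inl (h1.mono (Fa_sub 1 K d))
  · exact Or.inr h1

end Pool.Agent.TH469.SX
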