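import Pool.Agent.TH469.SX.Near

/-! 21 general points of multiplicities `m` and `m + 1`, the number of the points of multiplicity
`m + 1` divisible by 3: the expected dimension in all degrees. -/

namespace Pool.Agent.TH469.SX

open Finset Pool.Agent.TH176.Nag Pool.Agent.TH603.Sur Pool.Agent.TH603.Cut Pool.Agent.H932R3
open Pool.Agent.TH864.SX (Fb Fa Slp)

/-- **emptiness or independence, 21 points, near-uniform** -/
theorem dich21_near {v : Fin 21 → ℕ} {m : ℕ} (hv : ∀ i, v i = m ∨ v i = m + 1)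
    (h3 : 3 ∣ (univ.filter fun i => v i = m + 1).card) (d : ℕ) :
    Emp v (TZ d) ∨ Sur v (TZ d) := by
  obtain ⟨b, hb⟩ := h3
  have hb7 : b ≤ 7 := by
    have h1 := card_filter_le (univ : Finset (Fin 21)) fun i => v i = m + 1
    rw [hb, card_univ, Fintype.card_fin] at h1
    omega
  -- the weights of a sector
  obtain ⟨w, hw⟩ : ∃ w : Fin 7 → ℕ, w = fun i : Fin 7 => if (i : ℕ) < b then m + 1 else m := ⟨_, rfl⟩
  have hw' : ∀ i, w i = m ∨ w i = m + 1 := by
    intro i
    rw [hw]
    by_cases h : (i : ℕ) < b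
    · right; simp [h]
    · left; simp [h]
  have hwc : (univ.filter fun i => w i = m + 1).card = b := by
    have e : (univ.filter fun i : Fin 7 => w i = m + 1) = univ.filter fun i : Fin 7 => (i : ℕ) < b := by
      ext i
      rw [mem_filter, mem_filter, hw]
      by_cases h : (i : ℕ) < b
      · simp [h]
      · simp [h]
    rw [e]
    interval_cases b <;> decide
  obtain ⟨f, hf⟩ : ∃ f : (Fin 7 ⊕ Fin 7) ⊕ Fin 7 → ℕ, f = Sum.elim (Sum.elim w w) w := ⟨_, rfl⟩
  have hf' : ∀ i, f i = m ∨ f i = m + 1 := by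
    rw [hf]
    rintro ((i | i) | i)
    · exact hw' i
    · exact hw' i
    · exact hw' i
  have c1 : Fintype.card {a // f a = m + 1} = 3 * b := by
    rw [Fintype.card_subtype, ← hwc, hf]
    have e : (univ.filter fun a : (Fin 7 ⊕ Fin 7) ⊕ Fin 7 => Sum.elim (Sum.elim w w) w a = m + 1) =
        ((univ.filter fun i => w i = m + 1).disjSum (univ.filter fun i => w i = m + 1)).disjSum
          (univ.filter fun i => w i = m + 1) := by
      ext a
      rcases a with (a | a) | a <;> simp
    rw [e, card_disjSum, card_disjSum]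
    ring
  have c2 : Fintype.card {a // v a = m + 1} = 3 * b := by
    rw [Fintype.card_subtype, hb]
  have c3 : ∀ (α : Type) [Fintype α] [DecidableEq α] (g : α → ℕ), (∀ i, g i = m ∨ g i = m + 1) →
      Fintype.card {a // g a = m} + Fintype.card {a // g a = m + 1} = Fintype.card α := by
    intro α _ _ g hg
    rw [Fintype.card_subtype, Fintype.card_subtype, ← card_union_of_disjoint, ← card_univ]
    · congr 1
      ext i
      simp [hg i]
    · rw [disjoint_filter]
      intro i _ h1 h2
      omega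
  have h21 : Fintype.card ((Fin 7 ⊕ Fin 7) ⊕ Fin 7) = 21 := by simp
  have d1 := c3 _ f hf'
  have d2 := c3 _ v hv
  rw [h21, c1] at d1
  rw [Fintype.card_fin, c2] at d2
  have hfib : ∀ c : ℕ, Nonempty ({a // f a = c} ≃ {a // v a = c}) := by
    intro c
    by_cases h1 : c = m + 1
    · subst h1
      exact ⟨Fintype.equivOfCardEq (by rw [c1, c2])⟩
    by_cases h2 : c = m
    · subst h2
      exact ⟨Fintype.equivOfCardEq (by omega)⟩
    · have e1 : IsEmpty {a // f a = c} := ⟨fun ⟨a, ha⟩ => by rcases hf' a with h | h <;> omega⟩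
      have e2 : IsEmpty {a // v a = c} := ⟨fun ⟨a, ha⟩ => by rcases hv a with h | h <;> omega⟩
      exact ⟨Equiv.equivOfIsEmpty _ _⟩
  obtain ⟨e, he⟩ : ∃ e : (Fin 7 ⊕ Fin 7) ⊕ Fin 7 ≃ Fin 21, ∀ a, v (e a) = f a :=
    ⟨Equiv.ofFiberEquiv fun c => (hfib c).some, fun a => Equiv.ofFiberEquiv_map _ a⟩
  have hs := slp21
  have h6 := K21_lt
  rcases dichNd (M := 3) (d := d) slp21 hw' with hd | hd
  · left
    have h := Emp_TZ3 hs h6 hd
    rw [← hf] at h
    exact Emp_emb (g := e) e.injective (fun i => by rw [he]) h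
  · right
    have h := Sur_TZ3 hs h6 hd
    rw [← hf] at h
    obtain ⟨T, g1, g2, g3⟩ := h
    refine ⟨T, g1, ?_, Emp_emb (g := e) e.injective (fun i => by rw [he]) g3⟩
    rw [g2]
    unfold Pool.Agent.TH603.Sur.cond
    rw [← e.sum_comp]
    exact sum_congr rfl fun i _ => by rw [he]

/-- **21 general points, near-uniform multiplicities: the expected dimension in all degrees** -/
theorem twentyone_near {v : Fin 21 → ℕ} {m : ℕ} (hv : ∀ i, v i = m ∨ v i = m + 1)
    (h3 : 3 ∣ (univ.filter fun i => v i = m + 1).card) :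
    ∃ F : MvPolynomial (Fin 21 × Fin 2) ℚ, F ≠ 0 ∧ ∀ {L : Type} [Field L] [CharZero L]
      (P : Fin 21 → Fin 2 → L), MvPolynomial.aeval (fun ij : Fin 21 × Fin 2 => P ij.1 ij.2) F ≠ 0 →
      ∀ d, ExpDim L v P d :=
  expDim_of_dich fun d => dich21_near hv h3 d

end Pool.Agent.TH469.SX
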